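import Pool.Agent.FTN.Hls
import Pool.Agent.FTN.Mnk
import Pool.Agent.FTN.Ost
import Pool.Agent.FTN.Wgt
import Pool.Agent.FTN.Hld
import Pool.Agent.FTN.Bas
import Pool.Agent.FTN.Stp
import Pool.Agent.FTN.Ind
import Pool.Agent.FTN.Cau
import Pool.Agent.FTN.Lin
import Pool.Agent.FTN.Mai
import Pool.Agent.FTN.Exa

/-!
# Free transport: the full conjectured range for causal data, and for all data with the
interleaved norm

Christ's conjecture asks for `‖ρ‖_{L^p(ℝ × ℝ^d)} ≤ C(d, p) ‖f‖_{L^a_v L^b_x}` for all `p > (d + 1) / d`,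
`a' = d p`, `b = d p / (d + 1)`, `ρ(t, x) = ∫ f(x - t v, v) dv`.  Here it is proved in every dimension
and for all these `p`, for every `f ≥ 0`, with the interleaved norm
`L^a_{v_1} L^b_{x_1} L^a_{v_2} L^b_{x_2} ⋯ L^a_{v_d} L^b_{x_d}` on the right hand side; and, as a
consequence, with the norm of `L^a_v L^b_x` for causal data, for example products of arbitrary
functions `f_i(x_i; v_1, ..., v_i)`, and finite unions of such data in arbitrary linear frames.
-/

set_option autoImplicit false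

open MeasureTheory Set
open scoped ENNReal NNReal

namespace Pool.Agent.Results.MP_eac235_an.CausalData

open Pool.Agent.FTN

/-- Products of functions `φ_i(x_i; v_1, ..., v_i)` are causal. -/
theorem causal_of_prod (b : ℝ) (hb : 0 ≤ b) (d : ℕ) (φ : Fin d → ℝ → (Fin d → ℝ) → ℝ≥0∞)
    (hφ : ∀ i, Measurable (Function.uncurry (φ i)))
    (had : ∀ i s v w, (∀ j, j ≤ i → v j = w j) → φ i s v = φ i s w) :
    Causal b d (fun x v => ∏ i, φ i (x i) v) :=
  Exa_prod b hb d φ hφ had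

/-- For all `d ≥ 1` and `p > (d + 1) / d` there is `C` such that `‖ρ‖_{L^p}` is at most `C` times the
interleaved norm of `f`, for every measurable `f ≥ 0`; consequently the estimate of the problem holds,
with the constant `L C`, for every `f` between some `F j`, `j < L`, and their sum, where `F j` is
causal in some linear frame. -/
theorem result (d : ℕ) (hd : 1 ≤ d) (p : ℝ) (hp : ((d : ℝ) + 1) / (d : ℝ) < p) :
    ∃ C : ℝ≥0,
      (∀ f : (Fin d → ℝ) → (Fin d → ℝ) → ℝ≥0∞, Measurable (Function.uncurry f) →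
        (∫⁻ t : ℝ, ∫⁻ x : Fin d → ℝ, (∫⁻ v : Fin d → ℝ, f (x - t • v) v) ^ p) ^ (1 / p) ≤
          (C : ℝ≥0∞) * inorm ((d : ℝ) * p / ((d : ℝ) * p - 1)) ((d : ℝ) * p / ((d : ℝ) + 1)) d f) ∧
      ∀ (L : ℕ) (A : Fin L → (Fin d → ℝ) ≃ₗ[ℝ] (Fin d → ℝ))
        (F : Fin L → (Fin d → ℝ) → (Fin d → ℝ) → ℝ≥0∞) (f : (Fin d → ℝ) → (Fin d → ℝ) → ℝ≥0∞),
        (∀ j, Measurable (Function.uncurry (F j))) →
        (∀ j, Causal ((d : ℝ) * p / ((d : ℝ) + 1)) d (fun x v => F j (A j x) (A j v))) →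
        (∀ j x v, F j x v ≤ f x v) → (∀ x v, f x v ≤ ∑ j, F j x v) → Est d p (L * C) f := by
  have hMnk : St_Mnk := thm_Mnk
  have hOst : St_Ost := thm_Ost thm_Hls hMnk
  have hBas : St_Bas := thm_Bas hOst thm_Wgt thm_Hld
  have hStp : St_Stp := thm_Stp hMnk hOst thm_Wgt thm_Hld
  have hInd : St_Ind := thm_Ind hMnk hBas hStp
  exact thm_Mai hInd thm_Cau thm_Lin d p hd hp

end Pool.Agent.Results.MP_eac235_an.CausalData
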