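import Pool.Agent.FTX.Poly
import Pool.Agent.FTX.Cov

/-!
# Free transport: the conjectured mixed-norm estimate in the full range for foliated data

Christ's conjecture asks for `‖ρ‖_{L^p(ℝ × ℝ^d)} ≤ C(d, p) ‖f‖_{L^a_v L^b_x}` for all `p > (d + 1) / d`,
`a' = d p`, `b = d p / (d + 1)`.  It is proved here, in every dimension and for all these `p`, for
the data which are finite unions of pieces foliated by polynomial graphs over the space of the
velocities (and, on a set of times, by more general graphs).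
-/

set_option autoImplicit false

open MeasureTheory Set
open scoped ENNReal NNReal

namespace Pool.Agent.Results.MP_eac235_an.FoliatedData

/-- The estimate of the problem for one `f = f x v`, with the constant `C`, the times restricted to
`T`: `‖ρ‖_{L^p(T × ℝ^d)} ≤ C ‖f‖_{L^a_v L^b_x}`, `a = d p / (d p - 1)`, `b = d p / (d + 1)`. -/
def Est (d : ℕ) (p : ℝ) (T : Set ℝ) (C : ℝ≥0) (f : (Fin d → ℝ) → (Fin d → ℝ) → ℝ≥0∞) : Prop :=
  (∫⁻ t in T, ∫⁻ x : Fin d → ℝ, (∫⁻ v : Fin d → ℝ, f (x - t • v) v) ^ p) ^ (1 / p) ≤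
    (C : ℝ≥0∞) *
      (∫⁻ v : Fin d → ℝ, (∫⁻ x : Fin d → ℝ, f x v ^ ((d : ℝ) * p / ((d : ℝ) + 1))) ^
          (((d : ℝ) * p / ((d : ℝ) * p - 1)) / ((d : ℝ) * p / ((d : ℝ) + 1)))) ^
        (1 / ((d : ℝ) * p / ((d : ℝ) * p - 1)))

/-- `f` is foliated by the graphs of the maps `c y`, `y ∈ Y`, with product weights: for almost every
`v` the map `y ↦ c y v` is measure preserving from `(Y, η)` onto a set `Om v` with Lebesgue measure,
`f · v` vanishes outside `Om v` and `f (c y v) v = g y * h v`. -/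
def Foliated {d : ℕ} {Y : Type} [MeasurableSpace Y] (η : Measure Y)
    (c : Y → (Fin d → ℝ) → Fin d → ℝ) (f : (Fin d → ℝ) → (Fin d → ℝ) → ℝ≥0∞) : Prop :=
  ∃ (Om : (Fin d → ℝ) → Set (Fin d → ℝ)) (g : Y → ℝ≥0∞) (h : (Fin d → ℝ) → ℝ≥0∞),
    (∀ v, MeasurableSet (Om v)) ∧ Measurable g ∧ Measurable h ∧
    ∀ᵐ v : Fin d → ℝ, MeasurePreserving (fun y => c y v) η (volume.restrict (Om v)) ∧
      (∀ᵐ x : Fin d → ℝ, x ∉ Om v → f x v = 0) ∧ ∀ᵐ y ∂η, f (c y v) v = g y * h v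

/-- `c` is a polynomial map of degree at most `k` -/
def PolyMap {d : ℕ} (k : ℕ) (c : (Fin d → ℝ) → Fin d → ℝ) : Prop :=
  ∀ i, ∃ P : MvPolynomial (Fin d) ℝ, P.totalDegree ≤ k ∧ ∀ v, c v i = MvPolynomial.eval v P

/-- `c` is differentiable and for `t ∈ T` the map `v ↦ c v + t v` takes no value at more than `N`
points which are not critical -/
def NToOne {d : ℕ} (N : ℕ) (T : Set ℝ) (c : (Fin d → ℝ) → Fin d → ℝ) : Prop :=
  Differentiable ℝ c ∧ ∀ t ∈ T, ∀ x, {v | c v + t • v = x ∧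
    (fderiv ℝ c v + t • ContinuousLinearMap.id ℝ (Fin d → ℝ)).det ≠ 0}.encard ≤ N

/-- For `p > (d + 1) / d`, the estimate holds with a constant depending only on `d, p, N, L` for
every `f` lying between some functions `F j`, `j < L`, and their sum, where `F j` is foliated by
graphs of polynomial maps of degree at most `k`, `(k + 2) ^ d ≤ N`, or of `N` to one maps. -/
theorem result (d : ℕ) (hd : 1 ≤ d) (p : ℝ) (hp : ((d : ℝ) + 1) / (d : ℝ) < p) (N L : ℕ) :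
    ∃ C : ℝ≥0, ∀ (T : Set ℝ) (Y : Fin L → Type) [∀ j, MeasurableSpace (Y j)]
      (η : ∀ j, Measure (Y j)) (c : ∀ j, Y j → (Fin d → ℝ) → Fin d → ℝ)
      (F : Fin L → (Fin d → ℝ) → (Fin d → ℝ) → ℝ≥0∞) (f : (Fin d → ℝ) → (Fin d → ℝ) → ℝ≥0∞),
      MeasurableSet T → (∀ j, Measurable (fun q : Y j × (Fin d → ℝ) => c j q.1 q.2)) →
      (∀ j y, (∃ k, (k + 2) ^ d ≤ N ∧ PolyMap k (c j y)) ∨ NToOne N T (c j y)) →
      (∀ j, Measurable (Function.uncurry (F j))) → (∀ j, Foliated (η j) (c j) (F j)) →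
      (∀ j x v, F j x v ≤ f x v) → (∀ x v, f x v ≤ ∑ j, F j x v) → Est d p T C f := by
  have hd0 : (0 : ℝ) < d := by exact_mod_cast hd
  have hp' : 1 + 1 / (d : ℝ) < p := by
    have e : ((d : ℝ) + 1) / (d : ℝ) = 1 + 1 / (d : ℝ) := by field_simp
    rwa [e] at hp
  refine ⟨L * (FTX.Cm d N p).toNNReal, ?_⟩
  intro T Y _ η c F f mT mc hc hF hfol h1 h2
  have hN : ∀ j y, NToOne N T (c j y) := by
    intro j y
    rcases hc j y with ⟨k, hk, hP⟩ | h
    · have h3 := FTX.poly_mult hP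
      refine ⟨h3.1, fun t _ x => (h3.2 t x).trans ?_⟩
      exact_mod_cast hk
    · exact h
  have hE : ∀ j, (∫⁻ t in T, ∫⁻ x : Fin d → ℝ, (∫⁻ v : Fin d → ℝ, F j (x - t • v) v) ^ p) ^
      (1 / p) ≤ FTX.Cm d N p *
      (∫⁻ v : Fin d → ℝ, (∫⁻ x : Fin d → ℝ, F j x v ^ ((d : ℝ) * p / ((d : ℝ) + 1))) ^
          (((d : ℝ) * p / ((d : ℝ) * p - 1)) / ((d : ℝ) * p / ((d : ℝ) + 1)))) ^
        (1 / ((d : ℝ) * p / ((d : ℝ) * p - 1))) := by
    intro j
    obtain ⟨Om, g, h, hOm, hg, hh, hall⟩ := hfol j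
    have h1 : ∀ᵐ v : Fin d → ℝ,
        MeasurePreserving (fun y => c j y v) (η j) (volume.restrict (Om v)) :=
      hall.mono fun v hv => hv.1
    have h2 : ∀ᵐ v : Fin d → ℝ, ∀ᵐ x : Fin d → ℝ, x ∉ Om v → F j x v = 0 :=
      hall.mono fun v hv => hv.2.1
    have h3 : ∀ᵐ v : Fin d → ℝ, ∀ᵐ y ∂(η j), F j (c j y v) v = g y * h v :=
      hall.mono fun v hv => hv.2.2
    have hsf : SigmaFinite (η j) := FTX.sigmaFinite_of h1
    have hFd := FTX.fdat_of mT (mc j) (fun y => (hN j y).1) (fun t ht y x => (hN j y).2 t ht x) h1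
    exact hFd.transport hd p hp' (hF j) hg hh hOm h1 h2 h3
  have hdp : (d : ℝ) + 1 < d * p := by
    have h3 : ((d : ℝ) + 1) / d * d < p * d := mul_lt_mul_of_pos_right hp hd0
    rw [div_mul_cancel₀ _ hd0.ne'] at h3
    linarith
  have h10 : 0 < 1 / (d : ℝ) := by positivity
  have hp0 : 0 < p := by linarith
  have hdp1 : 0 < (d : ℝ) * p - 1 := by linarith
  have h3 := FTX.cover (p := p) (a := (d : ℝ) * p / ((d : ℝ) * p - 1))
    (b := (d : ℝ) * p / ((d : ℝ) + 1)) (T := T) (C := FTX.Cm d N p) (by linarith)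
    (by positivity) (by positivity) hF h1 h2 hE
  have h4 : (((L : ℝ≥0) * (FTX.Cm d N p).toNNReal : ℝ≥0) : ℝ≥0∞) =
      (L : ℝ≥0∞) * FTX.Cm d N p := by
    rw [ENNReal.coe_mul, ENNReal.coe_toNNReal (FTX.Cm_fin hd hp')]
    push_cast; rfl
  unfold Est
  rw [h4]
  exact h3

end Pool.Agent.Results.MP_eac235_an.FoliatedData
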